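import Pool.Agent.Run7.h304.KT.OV
import Pool.Agent.N792.ShpA
import Pool.Agent.Run7.h704.BPD.SQ

/-!
# Project KT, piece GA: the average of the truncated singular series of the linear tuples
-/

set_option autoImplicit false

namespace Run7.h304.KT

open Finset Filter Topology
open Run7.h462.KT
open Pool.Agent.H373R2.T7 (pz Vz mem_pz Vz_pos)
open scoped Polynomial

variable {k : ℕ}

lemma loc_pos {p : ℕ} (hp : p.Prime) : 0 < 1 - 1 / (p : ℝ) := by
  have h1 : (2 : ℝ) ≤ p := by exact_mod_cast hp.two_le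
  rw [sub_pos, div_lt_one (by linarith)]
  linarith

lemma fac_no (h : Fin k → ℕ) {p : ℕ} (hp : p.Prime) (hov : ¬ ov h p) :
    (1 - (rk (Polynomial.X : ℤ[X]) h p : ℝ) / p) / (1 - 1 / (p : ℝ)) ^ k ≤ 1 := by
  have h2 : (2 : ℝ) ≤ p := by exact_mod_cast hp.two_le
  rw [rk_X_eq h hp hov, div_le_one (pow_pos (loc_pos hp) k)]
  have h1 := one_add_mul_le_pow (a := -(1 / (p : ℝ))) (by
    have : 1 / (p : ℝ) ≤ 1 := by rw [div_le_one (by linarith)]; linarith
    linarith) k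
  calc (1 : ℝ) - (k : ℝ) / p = 1 + (k : ℝ) * -(1 / (p : ℝ)) := by ring
    _ ≤ (1 + -(1 / (p : ℝ))) ^ k := h1
    _ = _ := by rw [← sub_eq_add_neg]

lemma fac_ov (h : Fin k → ℕ) {p : ℕ} (hp : p.Prime) :
    (1 - (rk (Polynomial.X : ℤ[X]) h p : ℝ) / p) / (1 - 1 / (p : ℝ)) ^ k ≤ 1 + (3 : ℝ) ^ k / p := by
  have h2 : (2 : ℝ) ≤ p := by exact_mod_cast hp.two_le
  have hp0 : (0 : ℝ) < p := by linarith
  have h3 : (1 - (rk (Polynomial.X : ℤ[X]) h p : ℝ) / p) / (1 - 1 / (p : ℝ)) ^ k ≤ 1 / (1 - 1 / (p : ℝ)) ^ k := by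
    apply div_le_div_of_nonneg_right (one_sub_le_one _ _ _) (pow_pos (loc_pos hp) k).le
  refine h3.trans ?_
  have h4 : 1 / (1 - 1 / (p : ℝ)) ≤ 1 + 2 * (1 / (p : ℝ)) := by
    rw [div_le_iff₀ (loc_pos hp)]
    have h5 : 1 / (p : ℝ) ≤ 1 / 2 := one_div_le_one_div_of_le (by norm_num) h2
    have h6 : 0 ≤ 1 / (p : ℝ) := by positivity
    nlinarith
  have h5 : 0 ≤ 1 / (1 - 1 / (p : ℝ)) := by
    have := loc_pos hp
    positivity
  calc 1 / (1 - 1 / (p : ℝ)) ^ k = (1 / (1 - 1 / (p : ℝ))) ^ k := by rw [one_div_pow]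
    _ ≤ (1 + 2 * (1 / (p : ℝ))) ^ k := pow_le_pow_left₀ h5 h4 k
    _ ≤ 1 + ((1 + 2) ^ k - 1) * (1 / (p : ℝ)) := one_add_mul_pow_le 2 (1 / (p : ℝ)) (by norm_num) (by positivity)
        (by rw [div_le_one hp0]; linarith) k
    _ ≤ 1 + (3 : ℝ) ^ k / p := by
        have h6 : ((1 : ℝ) + 2) ^ k = 3 ^ k := by norm_num
        rw [h6]
        have h7 : 0 ≤ 1 / (p : ℝ) := by positivity
        have h8 : (3 : ℝ) ^ k / p = 3 ^ k * (1 / p) := by ring
        rw [h8]
        linarith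

open Classical in
lemma gk_split (h : Fin k → ℕ) (y w : ℕ) (hyw : y ≤ w) :
    gk (Polynomial.X : ℤ[X]) h w ≤
      gk (Polynomial.X : ℤ[X]) h y * ∏ p ∈ (pz w).filter (fun p => y < p ∧ ov h p), (1 + (3 : ℝ) ^ k / (p : ℝ)) := by
  rw [gk_eq_prod _ h w, gk_eq_prod _ h y, ← prod_filter_mul_prod_filter_not (pz w) (fun p => p ≤ y)]
  have h1 : (pz w).filter (fun p => p ≤ y) = pz y := by
    ext p
    rw [mem_filter, mem_pz, mem_pz]
    constructor
    · rintro ⟨⟨_, h2⟩, h3⟩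
      exact ⟨h3, h2⟩
    · rintro ⟨h2, h3⟩
      exact ⟨⟨h2.trans hyw, h3⟩, h2⟩
  rw [h1]
  apply mul_le_mul_of_nonneg_left
  · have h2 : (pz w).filter (fun p => y < p ∧ ov h p) = ((pz w).filter (fun p => ¬ p ≤ y)).filter (fun p => ov h p) := by
      ext p
      rw [mem_filter, mem_filter, mem_filter, not_le]
      tauto
    rw [h2, Finset.prod_filter (fun p => ov h p)]
    apply Finset.prod_le_prod
    · intro p hp
      have hp' := (mem_pz.1 (mem_filter.1 hp).1).2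
      exact div_nonneg (one_sub_nonneg _ h hp') (pow_pos (loc_pos hp') k).le
    · intro p hp
      have hp' := (mem_pz.1 (mem_filter.1 hp).1).2
      split_ifs with hov
      · exact fac_ov h hp'
      · exact fac_no h hp' hov
  · apply prod_nonneg
    intro p hp
    have hp' := (mem_pz.1 hp).2
    exact div_nonneg (one_sub_nonneg _ h hp') (pow_pos (loc_pos hp') k).le

/-- the number of the tuples with two equal coordinates -/
lemma card_noninj (k H : ℕ) : (H : ℝ) ^ k - #(inj k H) ≤ (k : ℝ) ^ 2 * (H : ℝ) ^ (k - 1) := by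
  classical
  set A := Fintype.piFinset (fun _ : Fin k => range H) with hA
  have hAc : (#A : ℝ) = (H : ℝ) ^ k := by
    rw [hA, Fintype.card_piFinset]
    simp
  set P : Finset (Fin k × Fin k) := univ.filter (fun e => e.1 ≠ e.2) with hP
  have h1 : #(inj k H) + #(A.filter (fun h => ¬ Function.Injective h)) = #A := by
    unfold inj
    rw [← hA]
    exact card_filter_add_card_filter_not _
  have h2 : (#(A.filter (fun h => ¬ Function.Injective h)) : ℝ) ≤
      ∑ h ∈ A, ∑ e ∈ P, (fun a b : ℕ => if a = b then (1 : ℝ) else 0) (h e.1) (h e.2) := by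
    rw [card_filter]
    push_cast
    apply sum_le_sum
    intro h _
    by_cases hi : Function.Injective h
    · rw [if_neg (not_not.2 hi)]
      apply sum_nonneg
      intro e _
      split_ifs <;> norm_num
    · rw [if_pos hi]
      unfold Function.Injective at hi
      push Not at hi
      obtain ⟨i, j, he, hij⟩ := hi
      have h3 : (i, j) ∈ P := by
        rw [hP, mem_filter]
        exact ⟨mem_univ _, hij⟩
      have h4 := single_le_sum (f := fun e : Fin k × Fin k =>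
        (fun a b : ℕ => if a = b then (1 : ℝ) else 0) (h e.1) (h e.2)) (fun e _ => by
          simp only
          split_ifs <;> norm_num) h3
      simp only at h4
      rw [if_pos he] at h4
      exact h4
  rw [sum_comm] at h2
  have h3 : ∀ e ∈ P, ∑ h ∈ A, (fun a b : ℕ => if a = b then (1 : ℝ) else 0) (h e.1) (h e.2) ≤ (H : ℝ) ^ (k - 1) * 1 := by
    intro e he
    rw [hP, mem_filter] at he
    refine fib H e.1 e.2 he.2 (fun a b : ℕ => if a = b then (1 : ℝ) else 0) ?_ 1 ?_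
    · intro a b
      split_ifs <;> norm_num
    · intro b _
      rw [← sum_filter, sum_const, nsmul_eq_mul, mul_one]
      have : #((range H).filter (fun a => a = b)) ≤ 1 := by
        rw [card_le_one]
        intro x hx x' hx'
        rw [mem_filter] at hx hx'
        rw [hx.2, hx'.2]
      exact_mod_cast this
  have h4 := h2.trans (sum_le_sum h3)
  rw [sum_const, nsmul_eq_mul, mul_one] at h4
  have h5 : (#P : ℝ) ≤ (k : ℝ) ^ 2 := by
    have : #P ≤ k ^ 2 := by
      refine (card_filter_le _ _).trans ?_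
      rw [card_univ, Fintype.card_prod, Fintype.card_fin, sq]
    exact_mod_cast this
  have h6 : (#(inj k H) : ℝ) + #(A.filter (fun h => ¬ Function.Injective h)) = #A := by exact_mod_cast h1
  have h7 : (#P : ℝ) * (H : ℝ) ^ (k - 1) ≤ (k : ℝ) ^ 2 * (H : ℝ) ^ (k - 1) := by gcongr
  linarith

/-- the indicator function of `p ∤ n` -/
noncomputable def cp (p n : ℕ) : ℝ := if p ∣ n then 0 else 1

lemma cp_per (p : ℕ) (x : ℕ) : Function.Periodic (fun a : ℕ => cp p (a + x)) p := by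
  intro a
  unfold cp
  simp only
  have : a + p + x = (a + x) + p := by ring
  rw [this]
  simp

/-- the local count -/
lemma loc_count (h : Fin k → ℕ) {p : ℕ} (hp : p.Prime) :
    ∑ x ∈ range p, ∏ i, cp p (x + h i) = p - rk (Polynomial.X : ℤ[X]) h p := by
  classical
  have h1 : ∀ x ∈ range p, ∏ i, cp p (x + h i) = 1 - (if (∃ i, (p : ℤ) ∣ (Polynomial.X : ℤ[X]).eval (x : ℤ) + (h i : ℤ)) then 1 else 0) := by
    intro x _
    split_ifs with hx
    · obtain ⟨i, hi⟩ := hx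
      rw [Polynomial.eval_X] at hi
      rw [sub_self]
      apply prod_eq_zero (mem_univ i)
      unfold cp
      rw [if_pos]
      exact_mod_cast hi
    · rw [sub_zero]
      apply prod_eq_one
      intro i _
      unfold cp
      rw [if_neg]
      intro hi
      apply hx
      refine ⟨i, ?_⟩
      rw [Polynomial.eval_X]
      exact_mod_cast hi
  rw [sum_congr rfl h1, sum_sub_distrib, sum_const, card_range, nsmul_eq_mul, mul_one, rk_eq_card _ h hp, card_filter]
  push_cast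
  rfl

/-- the number of the `a` modulo `W` with `a + x` coprime to `W` -/
lemma coprime_count (y x : ℕ) :
    ∑ a ∈ range (∏ p ∈ pz y, p), ∏ p ∈ pz y, cp p (a + x) = (∏ p ∈ pz y, p : ℕ) * Vz y := by
  rw [Run7.h704.BPD.crt_prod (fun p a => cp p (a + x)) (fun p => cp_per p x) (pz y) (fun _ hp => (mem_pz.1 hp).2)]
  unfold Vz
  push_cast
  rw [← prod_mul_distrib]
  apply prod_congr rfl
  intro p hp
  have hp' := (mem_pz.1 hp).2
  have hp0 : (p : ℝ) ≠ 0 := by exact_mod_cast hp'.ne_zero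
  have h1 := loc_count (fun _ : Fin 1 => x) hp'
  rw [rk_X _ hp'] at h1
  simp only [univ_unique, image_singleton, card_singleton, prod_const, pow_one] at h1
  rw [h1]
  push_cast
  field_simp

lemma coprime_count' (y x n : ℕ) :
    ∑ a ∈ range (n * ∏ p ∈ pz y, p), ∏ p ∈ pz y, cp p (a + x) = n * ((∏ p ∈ pz y, p : ℕ) * Vz y) := by
  induction n with
  | zero => simp
  | succ n ih =>
    rw [Nat.succ_mul, sum_range_add, ih]
    have h1 : ∀ a ∈ range (∏ p ∈ pz y, p), ∏ p ∈ pz y, cp p (n * (∏ p ∈ pz y, p) + a + x) =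
        ∏ p ∈ pz y, cp p (a + (n * (∏ p ∈ pz y, p) + x)) := by
      intro a _
      have : n * (∏ p ∈ pz y, p) + a + x = a + (n * (∏ p ∈ pz y, p) + x) := by ring
      rw [this]
    rw [sum_congr rfl h1, coprime_count]
    push_cast
    ring

lemma W_pos (y : ℕ) : 0 < ∏ p ∈ pz y, p := prod_pos fun p hp => (mem_pz.1 hp).2.pos

/-- the density as a mean value -/
lemma dens_eq (h : Fin k → ℕ) (y : ℕ) :
    ∏ p ∈ pz y, (1 - (rk (Polynomial.X : ℤ[X]) h p : ℝ) / p) =
      ((∏ p ∈ pz y, p : ℕ) : ℝ)⁻¹ * ∑ x ∈ range (∏ p ∈ pz y, p), ∏ i, ∏ p ∈ pz y, cp p (h i + x) := by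
  have h1 : ∀ x ∈ range (∏ p ∈ pz y, p), ∏ i, ∏ p ∈ pz y, cp p (h i + x) = ∏ p ∈ pz y, ∏ i, cp p (x + h i) := by
    intro x _
    rw [Finset.prod_comm]
    apply prod_congr rfl
    intro p _
    apply prod_congr rfl
    intro i _
    rw [add_comm]
  rw [sum_congr rfl h1, Run7.h704.BPD.crt_prod (fun p x => ∏ i, cp p (x + h i)) (fun _ a => by
    simp only
    apply prod_congr rfl
    intro i _
    exact cp_per _ (h i) a) (pz y) (fun _ hp => (mem_pz.1 hp).2)]
  push_cast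
  rw [← prod_inv_distrib, ← prod_mul_distrib]
  apply prod_congr rfl
  intro p hp
  have hp' := (mem_pz.1 hp).2
  have hp0 : (p : ℝ) ≠ 0 := by exact_mod_cast hp'.ne_zero
  rw [loc_count h hp']
  field_simp

/-- the mean value of the truncated singular series is `1` -/
lemma mean_one (k y n : ℕ) :
    ∑ h ∈ Fintype.piFinset (fun _ : Fin k => range (n * ∏ p ∈ pz y, p)), gk (Polynomial.X : ℤ[X]) h y =
      ((n * ∏ p ∈ pz y, p : ℕ) : ℝ) ^ k := by
  have hW : (0 : ℝ) < ((∏ p ∈ pz y, p : ℕ) : ℝ) := by exact_mod_cast W_pos y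
  have hV := Vz_pos y
  have h1 : ∀ h ∈ Fintype.piFinset (fun _ : Fin k => range (n * ∏ p ∈ pz y, p)), gk (Polynomial.X : ℤ[X]) h y =
      (Vz y ^ k)⁻¹ * (((∏ p ∈ pz y, p : ℕ) : ℝ)⁻¹ * ∑ x ∈ range (∏ p ∈ pz y, p), ∏ i, ∏ p ∈ pz y, cp p (h i + x)) := by
    intro h _
    unfold gk
    rw [dens_eq, div_eq_inv_mul]
  rw [sum_congr rfl h1, ← mul_sum, ← mul_sum, sum_comm]
  have h2 : ∀ x ∈ range (∏ p ∈ pz y, p), ∑ h ∈ Fintype.piFinset (fun _ : Fin k => range (n * ∏ p ∈ pz y, p)),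
      ∏ i, ∏ p ∈ pz y, cp p (h i + x) = ((n : ℝ) * ((∏ p ∈ pz y, p : ℕ) * Vz y)) ^ k := by
    intro x _
    rw [← prod_univ_sum (fun _ : Fin k => range (n * ∏ p ∈ pz y, p)) (fun _ a => ∏ p ∈ pz y, cp p (a + x))]
    rw [coprime_count', prod_const, card_univ, Fintype.card_fin]
  rw [sum_congr rfl h2, sum_const, card_range, nsmul_eq_mul]
  push_cast at hW ⊢
  rw [mul_pow, mul_pow, mul_pow]
  field_simp

lemma gk_le (h : Fin k → ℕ) (y : ℕ) : gk (Polynomial.X : ℤ[X]) h y ≤ (Vz y ^ k)⁻¹ := by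
  unfold gk
  rw [div_eq_inv_mul]
  apply mul_le_of_le_one_right
  · have := Vz_pos y
    positivity
  · apply prod_le_one
    · intro p hp
      exact one_sub_nonneg _ h (mem_pz.1 hp).2
    · intro p _
      exact one_sub_le_one _ _ _

/-- piece GA -/
theorem ga_main (k : ℕ) (hk : 1 ≤ k) (hOV : S_OV k) : S_GA k := by
  classical
  intro θ hθ
  obtain ⟨C', hC', HOV⟩ := hOV (3 ^ k) (by positivity)
  obtain ⟨c, hc, HV⟩ := Pool.Agent.N792.Shp.V1_lower
  -- the choice of `y`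
  obtain ⟨y, hy3, hy⟩ : ∃ y : ℕ, 3 ≤ y ∧ (Vz y ^ k)⁻¹ * (C' / y) ≤ θ / 3 := by
    have h1 := (Real.tendsto_pow_log_div_mul_add_atTop 1 0 k one_ne_zero).comp (tendsto_natCast_atTop_atTop (R := ℝ))
    have h2 : Tendsto (fun y : ℕ => C' / c ^ k * (Real.log y ^ k / (1 * (y : ℝ) + 0))) atTop (𝓝 (C' / c ^ k * 0)) :=
      h1.const_mul _
    rw [mul_zero] at h2
    have h3 := h2.eventually (gt_mem_nhds (show (0 : ℝ) < θ / 3 by positivity))
    obtain ⟨y, hy1, hy2⟩ := (h3.and (eventually_ge_atTop 3)).exists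
    refine ⟨y, hy2, ?_⟩
    have hlog : 0 < Real.log y := Real.log_pos (by exact_mod_cast (by omega : 1 < y))
    have hy0 : (0 : ℝ) < y := by exact_mod_cast (by omega : 0 < y)
    have h4 : c / Real.log y ≤ Vz y := HV y hy2
    have h5 : (Vz y ^ k)⁻¹ ≤ ((c / Real.log y) ^ k)⁻¹ := by
      apply inv_anti₀ (by positivity)
      exact pow_le_pow_left₀ (by positivity) h4 k
    calc (Vz y ^ k)⁻¹ * (C' / y) ≤ ((c / Real.log y) ^ k)⁻¹ * (C' / y) := by gcongr
      _ = C' / c ^ k * (Real.log y ^ k / (1 * (y : ℝ) + 0)) := by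
          rw [div_pow, one_mul, add_zero]
          field_simp
      _ ≤ θ / 3 := hy1.le
  set W := ∏ p ∈ pz y, p with hW
  have hW0 : 0 < W := W_pos y
  have hV := Vz_pos y
  have hy0 : (0 : ℝ) < y := by exact_mod_cast (by omega : 0 < y)
  -- the choice of `H₀`
  obtain ⟨H₁, hH₁⟩ := exists_nat_ge (3 * 2 ^ k * W / θ)
  obtain ⟨H₂, hH₂⟩ := exists_nat_ge (3 * ((Vz y ^ k)⁻¹ * (k : ℝ) ^ 2) / θ)
  refine ⟨max (max H₁ H₂) (W + 1), y, ?_⟩
  intro H hH w hw
  have hHW : W + 1 ≤ H := (le_max_right _ _).trans hH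
  have hH1' : H₁ ≤ H := (le_max_left _ _).trans ((le_max_left _ _).trans hH)
  have hH2' : H₂ ≤ H := (le_max_right _ _).trans ((le_max_left _ _).trans hH)
  have hH0 : (0 : ℝ) < H := by exact_mod_cast (by omega : 0 < H)
  have hHW' : (W : ℝ) ≤ H := by exact_mod_cast (by omega : W ≤ H)
  have hWr : (0 : ℝ) < W := by exact_mod_cast hW0
  have hA : 3 * 2 ^ k * (W : ℝ) ≤ θ * H := by
    have h1 : 3 * 2 ^ k * (W : ℝ) / θ ≤ H := hH₁.trans (by exact_mod_cast hH1')
    rw [div_le_iff₀ hθ] at h1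
    linarith
  have hB : 3 * ((Vz y ^ k)⁻¹ * (k : ℝ) ^ 2) ≤ θ * H := by
    have h1 : 3 * ((Vz y ^ k)⁻¹ * (k : ℝ) ^ 2) / θ ≤ H := hH₂.trans (by exact_mod_cast hH2')
    rw [div_le_iff₀ hθ] at h1
    linarith
  -- step 1
  have h1 : ∑ h ∈ inj k H, gk (Polynomial.X : ℤ[X]) h w ≤ ∑ h ∈ inj k H, (gk (Polynomial.X : ℤ[X]) h y +
      (Vz y ^ k)⁻¹ * ((∏ p ∈ (pz w).filter (fun p => y < p ∧ ov h p), (1 + (3 : ℝ) ^ k / (p : ℝ))) - 1)) := by
    apply sum_le_sum
    intro h _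
    refine (gk_split h y w hw).trans ?_
    have h2 : 1 ≤ ∏ p ∈ (pz w).filter (fun p => y < p ∧ ov h p), (1 + (3 : ℝ) ^ k / (p : ℝ)) := by
      apply one_le_prod
      intro p _
      have : 0 ≤ (3 : ℝ) ^ k / (p : ℝ) := by positivity
      linarith
    have h3 := gk_le h y
    nlinarith [mul_le_mul_of_nonneg_right h3 (sub_nonneg.2 h2)]
  refine h1.trans ?_
  rw [sum_add_distrib, ← mul_sum, sum_sub_distrib, sum_const, nsmul_eq_mul, mul_one]
  -- step 2
  have h2 : ∑ h ∈ inj k H, gk (Polynomial.X : ℤ[X]) h y ≤ (1 + θ / 3) * (H : ℝ) ^ k := by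
    have h3 : inj k H ⊆ Fintype.piFinset (fun _ : Fin k => range ((H / W + 1) * W)) := by
      intro h hh
      rw [mem_inj] at hh
      rw [Fintype.mem_piFinset]
      intro i
      rw [mem_range]
      have h4 := hh.1 i
      have h5 : H < (H / W + 1) * W := by
        have := Nat.lt_div_mul_add (a := H) hW0
        nlinarith
      omega
    refine (sum_le_sum_of_subset_of_nonneg h3 (fun h _ _ => gk_nonneg _ _ _)).trans ?_
    rw [hW, mean_one, ← hW]
    have h4 : (((H / W + 1) * W : ℕ) : ℝ) ≤ H + W := by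
      have : (H / W + 1) * W ≤ H + W := by
        have := Nat.div_mul_le_self H W
        nlinarith
      exact_mod_cast this
    have h5 : (((H / W + 1) * W : ℕ) : ℝ) ^ k ≤ ((H : ℝ) + W) ^ k := pow_le_pow_left₀ (Nat.cast_nonneg _) h4 k
    refine h5.trans ?_
    have h6 : ((H : ℝ) + W) ^ k = (1 + 1 * ((W : ℝ) / H)) ^ k * (H : ℝ) ^ k := by
      rw [← mul_pow]
      congr 1
      field_simp
    rw [h6]
    apply mul_le_mul_of_nonneg_right _ (by positivity)
    refine (one_add_mul_pow_le 1 ((W : ℝ) / H) (by norm_num) (by positivity) (by rw [div_le_one hH0]; exact hHW') k).trans ?_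
    have h7 : ((1 : ℝ) + 1) ^ k = 2 ^ k := by norm_num
    rw [h7]
    have h8 : 2 ^ k * ((W : ℝ) / H) ≤ θ / 3 := by
      rw [mul_div_assoc', div_le_iff₀ hH0]
      linarith
    have h9 : 0 ≤ (W : ℝ) / H := by positivity
    linarith
  -- step 3
  have h3 := HOV y (by omega) w H
  have h4 := card_noninj k H
  have h5 : (∑ h ∈ inj k H, ∏ p ∈ (pz w).filter (fun p => y < p ∧ ov h p), (1 + (3 : ℝ) ^ k / (p : ℝ))) - #(inj k H) ≤
      C' / y * (H : ℝ) ^ k + (k : ℝ) ^ 2 * (H : ℝ) ^ (k - 1) := by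
    have : (1 + C' / y) * (H : ℝ) ^ k = (H : ℝ) ^ k + C' / y * (H : ℝ) ^ k := by ring
    linarith
  have hVk : 0 ≤ (Vz y ^ k)⁻¹ := by positivity
  have h6 := mul_le_mul_of_nonneg_left h5 hVk
  have h7 : (H : ℝ) ^ k = H * (H : ℝ) ^ (k - 1) := by
    rw [← pow_succ']
    congr 1
    omega
  have hP : 0 ≤ (H : ℝ) ^ (k - 1) := by positivity
  have hPk : 0 ≤ (H : ℝ) ^ k := by positivity
  have h8 : (Vz y ^ k)⁻¹ * (C' / y * (H : ℝ) ^ k) ≤ θ / 3 * (H : ℝ) ^ k := by
    rw [← mul_assoc]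
    exact mul_le_mul_of_nonneg_right hy hPk
  have h9 : (Vz y ^ k)⁻¹ * ((k : ℝ) ^ 2 * (H : ℝ) ^ (k - 1)) ≤ θ / 3 * (H : ℝ) ^ k := by
    rw [h7, ← mul_assoc, ← mul_assoc]
    apply mul_le_mul_of_nonneg_right _ hP
    linarith
  rw [mul_add] at h6
  linarith

end Run7.h304.KT
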