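import Pool.Agent.Run7.h462.KT.Bas

/-!
# Project KT, piece OV: the primes dividing the differences, on average
-/

set_option autoImplicit false

namespace Run7.h304.KT

open Finset
open Run7.h462.KT
open Pool.Agent.H373R2.T7 (pz Vz mem_pz Vz_pos)

/-- a sum over the tuples of a function of two coordinates -/
lemma fib {k : ℕ} (H : ℕ) (i j : Fin k) (hij : i ≠ j) (f : ℕ → ℕ → ℝ) (hf : ∀ a b, 0 ≤ f a b) (B : ℝ)
    (hB : ∀ b < H, ∑ a ∈ range H, f a b ≤ B) :
    ∑ h ∈ Fintype.piFinset (fun _ : Fin k => range H), f (h i) (h j) ≤ (H : ℝ) ^ (k - 1) * B := by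
  classical
  set T : Finset (Fin k → ℕ) := Fintype.piFinset (fun l : Fin k => if l = i then {0} else range H) with hT
  have hmap : ∀ h ∈ Fintype.piFinset (fun _ : Fin k => range H), Function.update h i 0 ∈ T := by
    intro h hh
    rw [Fintype.mem_piFinset] at hh
    rw [hT, Fintype.mem_piFinset]
    intro l
    by_cases hl : l = i
    · subst hl
      simp
    · rw [if_neg hl, Function.update_of_ne hl]
      exact hh l
  rw [← sum_fiberwise_of_maps_to hmap]
  have h1 : ∀ g ∈ T, ∑ h ∈ (Fintype.piFinset (fun _ : Fin k => range H)).filter (fun h => Function.update h i 0 = g),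
      f (h i) (h j) ≤ B := by
    intro g hg
    have hgj : g j < H := by
      rw [hT, Fintype.mem_piFinset] at hg
      have := hg j
      rw [if_neg hij.symm, mem_range] at this
      exact this
    refine le_trans ?_ (hB (g j) hgj)
    have h2 : ∀ h ∈ (Fintype.piFinset (fun _ : Fin k => range H)).filter (fun h => Function.update h i 0 = g),
        f (h i) (h j) = f (h i) (g j) := by
      intro h hh
      rw [mem_filter] at hh
      rw [← hh.2, Function.update_of_ne hij.symm]
    rw [sum_congr rfl h2]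
    have hinj : Set.InjOn (fun h : Fin k → ℕ => h i)
        ((Fintype.piFinset (fun _ : Fin k => range H)).filter (fun h => Function.update h i 0 = g)) := by
      intro h hh h' hh' he
      rw [mem_coe, mem_filter] at hh hh'
      simp only at he
      funext l
      by_cases hl : l = i
      · subst hl
        exact he
      · have e1 := congrFun hh.2 l
        have e2 := congrFun hh'.2 l
        rw [Function.update_of_ne hl] at e1 e2
        rw [e1, e2]
    rw [← sum_image (f := fun a => f a (g j)) hinj]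
    apply sum_le_sum_of_subset_of_nonneg
    · intro a ha
      rw [mem_image] at ha
      obtain ⟨h, hh, rfl⟩ := ha
      rw [mem_filter, Fintype.mem_piFinset] at hh
      exact hh.1 i
    · intro a _ _
      exact hf _ _
  refine (sum_le_sum h1).trans ?_
  rw [sum_const, nsmul_eq_mul]
  have hTc : #T = H ^ (k - 1) := by
    rw [hT, Fintype.card_piFinset]
    have : ∀ l : Fin k, #(if l = i then ({0} : Finset ℕ) else range H) = if l = i then 1 else H := by
      intro l
      split_ifs <;> simp
    rw [prod_congr rfl (fun l _ => this l), prod_ite, prod_const, prod_const, one_pow, one_mul]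
    congr 1
    rw [filter_not, card_sdiff_of_subset (filter_subset _ _)]
    simp [filter_eq']
  rw [hTc]
  push_cast
  exact le_refl _

lemma one_add_mul_pow_le (C t : ℝ) (hC : 0 ≤ C) (ht0 : 0 ≤ t) (ht1 : t ≤ 1) (M : ℕ) :
    (1 + C * t) ^ M ≤ 1 + ((1 + C) ^ M - 1) * t := by
  induction M with
  | zero => simp
  | succ M ih =>
    have hD : 1 ≤ (1 + C) ^ M := one_le_pow₀ (by linarith)
    have h1 : 0 ≤ C * t := mul_nonneg hC ht0
    calc (1 + C * t) ^ (M + 1) = (1 + C * t) ^ M * (1 + C * t) := pow_succ _ _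
      _ ≤ (1 + ((1 + C) ^ M - 1) * t) * (1 + C * t) := by gcongr
      _ = 1 + ((1 + C) ^ M - 1) * t + C * t + C * ((1 + C) ^ M - 1) * (t * t) := by ring
      _ ≤ 1 + ((1 + C) ^ M - 1) * t + C * t + C * ((1 + C) ^ M - 1) * t := by
          have h2 : 0 ≤ C * ((1 + C) ^ M - 1) := mul_nonneg hC (by linarith)
          have h3 : t * t ≤ t := by nlinarith
          nlinarith [mul_le_mul_of_nonneg_left h3 h2]
      _ = _ := by rw [pow_succ]; ring

lemma prod_le_sum {ι : Type*} (P : Finset ι) (x : ι → ℝ) (hx : ∀ e ∈ P, 1 ≤ x e) :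
    ∏ e ∈ P, x e ≤ 1 + ∑ e ∈ P, (x e ^ #P - 1) := by
  rcases P.eq_empty_or_nonempty with rfl | hP
  · simp
  obtain ⟨m, hm, hmax⟩ := P.exists_max_image x hP
  calc ∏ e ∈ P, x e ≤ ∏ _e ∈ P, x m := prod_le_prod (fun e he => zero_le_one.trans (hx e he)) hmax
    _ = x m ^ #P := by rw [prod_const]
    _ = 1 + (x m ^ #P - 1) := by ring
    _ ≤ _ := by
      have := single_le_sum (f := fun e => x e ^ #P - 1) (fun e he => sub_nonneg.2 (one_le_pow₀ (hx e he))) hm
      linarith

lemma prod_biUnion_le {ι α : Type*} [DecidableEq ι] [DecidableEq α] (P : Finset ι) (A : ι → Finset α) (f : α → ℝ)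
    (hf : ∀ a, 1 ≤ f a) : ∏ a ∈ P.biUnion A, f a ≤ ∏ e ∈ P, ∏ a ∈ A e, f a := by
  have h1 : ∀ s : Finset α, 1 ≤ ∏ a ∈ s, f a := fun s => by
    induction s using Finset.induction_on with
    | empty => simp
    | insert a s ha ih =>
      rw [prod_insert ha]
      exact one_le_mul_of_one_le_of_one_le (hf a) ih
  induction P using Finset.induction_on with
  | empty => simp
  | insert e P he ih =>
    rw [biUnion_insert, prod_insert he]
    have h2 := prod_union_inter (s₁ := A e) (s₂ := P.biUnion A) (f := f)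
    have h3 := h1 (A e ∩ P.biUnion A)
    have h4 := h1 (A e ∪ P.biUnion A)
    have h5 := h1 (A e)
    calc ∏ a ∈ A e ∪ P.biUnion A, f a ≤ (∏ a ∈ A e ∪ P.biUnion A, f a) * ∏ a ∈ A e ∩ P.biUnion A, f a := by
          nlinarith
      _ = (∏ a ∈ A e, f a) * ∏ a ∈ P.biUnion A, f a := h2
      _ ≤ _ := by
          apply mul_le_mul_of_nonneg_left ih
          linarith

lemma one_le_prod {α : Type*} (s : Finset α) (f : α → ℝ) (hf : ∀ a ∈ s, 1 ≤ f a) : 1 ≤ ∏ a ∈ s, f a := by
  classical
  induction s using Finset.induction_on with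
  | empty => simp
  | insert a s ha ih =>
    rw [prod_insert ha]
    exact one_le_mul_of_one_le_of_one_le (hf a (mem_insert_self _ _)) (ih fun b hb => hf b (mem_insert_of_mem hb))

/-- the mean value of `∏_{p ∣ m} (1 + C / p)` -/
lemma mean (C : ℝ) (hC : 0 ≤ C) (y w H : ℕ) (hy : 1 ≤ y) :
    ∑ m ∈ Icc 1 H, ∏ p ∈ (pz w).filter (fun p => y < p ∧ p ∣ m), (1 + C / (p : ℝ)) ≤ H * Real.exp (C / y) := by
  classical
  set S := (pz w).filter (fun p => y < p) with hS
  have hSp : ∀ p ∈ S, p.Prime := fun p hp => (mem_pz.1 (mem_filter.1 hp).1).2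
  have h1 : ∀ m ∈ Icc 1 H, ∏ p ∈ (pz w).filter (fun p => y < p ∧ p ∣ m), (1 + C / (p : ℝ)) =
      ∑ T ∈ S.powerset, if (∀ p ∈ T, p ∣ m) then ∏ p ∈ T, C / (p : ℝ) else 0 := by
    intro m _
    rw [prod_one_add, ← sum_filter]
    apply sum_congr _ (fun _ _ => rfl)
    ext T
    rw [mem_filter, mem_powerset, mem_powerset]
    constructor
    · intro h
      refine ⟨fun p hp => ?_, fun p hp => ?_⟩
      · have := h hp
        rw [mem_filter] at this
        rw [hS, mem_filter]
        exact ⟨this.1, this.2.1⟩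
      · have := h hp
        rw [mem_filter] at this
        exact this.2.2
    · rintro ⟨h, h'⟩ p hp
      have := h hp
      rw [hS, mem_filter] at this
      rw [mem_filter]
      exact ⟨this.1, this.2, h' p hp⟩
  rw [sum_congr rfl h1, sum_comm]
  have h2 : ∀ T ∈ S.powerset, (∑ m ∈ Icc 1 H, if (∀ p ∈ T, p ∣ m) then ∏ p ∈ T, C / (p : ℝ) else 0) ≤
      H * ∏ p ∈ T, (C / (p : ℝ) ^ 2) := by
    intro T hT
    rw [mem_powerset] at hT
    rw [← sum_filter, sum_const, nsmul_eq_mul]
    have h3 : #((Icc 1 H).filter (fun m => ∀ p ∈ T, p ∣ m)) ≤ H / ∏ p ∈ T, p := by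
      rw [← Nat.Ioc_filter_dvd_card_eq_div]
      apply card_le_card
      intro m hm
      rw [mem_filter, mem_Icc] at hm
      rw [mem_filter, mem_Ioc]
      refine ⟨⟨by omega, hm.1.2⟩, ?_⟩
      exact prod_primes_dvd m (fun p hp => (hSp p (hT hp)).prime) hm.2
    have h4 : ((H / ∏ p ∈ T, p : ℕ) : ℝ) ≤ H / ∏ p ∈ T, (p : ℝ) := by
      refine Nat.cast_div_le.trans ?_
      push_cast
      exact le_refl _
    have h5 : 0 ≤ ∏ p ∈ T, C / (p : ℝ) := prod_nonneg fun p _ => by positivity
    calc (#((Icc 1 H).filter (fun m => ∀ p ∈ T, p ∣ m)) : ℝ) * ∏ p ∈ T, C / (p : ℝ)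
        ≤ (H / ∏ p ∈ T, (p : ℝ)) * ∏ p ∈ T, C / (p : ℝ) := by
          apply mul_le_mul_of_nonneg_right _ h5
          refine le_trans ?_ h4
          exact_mod_cast h3
      _ = H * ((∏ p ∈ T, C / (p : ℝ)) / ∏ p ∈ T, (p : ℝ)) := by ring
      _ = H * ∏ p ∈ T, (C / (p : ℝ) ^ 2) := by
          rw [← prod_div_distrib]
          congr 1
          apply prod_congr rfl
          intro p _
          rw [div_div, sq]
  refine (sum_le_sum h2).trans ?_
  rw [← mul_sum, ← prod_one_add]
  apply mul_le_mul_of_nonneg_left _ (Nat.cast_nonneg H)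
  have h6 : ∏ p ∈ S, (1 + C / (p : ℝ) ^ 2) ≤ Real.exp (∑ p ∈ S, C / (p : ℝ) ^ 2) := by
    rw [Real.exp_sum]
    apply prod_le_prod
    · intro p _
      positivity
    · intro p _
      rw [add_comm]
      exact Real.add_one_le_exp _
  refine h6.trans ?_
  apply Real.exp_le_exp.2
  have h7 : ∑ p ∈ S, C / (p : ℝ) ^ 2 = C * ∑ p ∈ S, ((p : ℝ) ^ 2)⁻¹ := by
    rw [mul_sum]
    rfl
  rw [h7]
  rw [div_eq_mul_inv]
  apply mul_le_mul_of_nonneg_left _ hC
  have h8 : S ⊆ Ioc y (max y w) := by
    intro p hp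
    rw [hS, mem_filter, mem_pz] at hp
    rw [mem_Ioc]
    exact ⟨hp.2, le_max_of_le_right hp.1.1⟩
  refine (sum_le_sum_of_subset_of_nonneg h8 (fun _ _ _ => by positivity)).trans ?_
  refine (sum_Ioc_inv_sq_le_sub (α := ℝ) (by omega : y ≠ 0) (le_max_left y w)).trans ?_
  have : (0 : ℝ) ≤ ((max y w : ℕ) : ℝ)⁻¹ := by positivity
  linarith

lemma exp_sub_one_le (x : ℝ) (_hx : 0 ≤ x) : Real.exp x - 1 ≤ x * Real.exp x := by
  have h1 := Real.add_one_le_exp (-x)
  have h2 : Real.exp x * Real.exp (-x) = 1 := by rw [← Real.exp_add]; simp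
  have h3 := Real.exp_pos x
  nlinarith

/-- the distance of two natural numbers -/
def ds (a b : ℕ) : ℕ := (a - b) + (b - a)

/-- the sum over one coordinate -/
lemma one_coord (F : ℕ → ℝ) (hF : ∀ m, 0 ≤ F m) (H b : ℕ) (hb : b < H) :
    ∑ a ∈ range H, (if a = b then 0 else F (ds a b)) ≤ 2 * ∑ m ∈ Icc 1 H, F m := by
  classical
  have h1 : ∀ a ∈ range H, (if a = b then 0 else F (ds a b)) ≤
      (if b < a then F (a - b) else 0) + (if a < b then F (b - a) else 0) := by
    intro a _
    unfold ds
    rcases lt_trichotomy a b with h | h | h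
    · rw [if_neg h.ne, if_neg (by omega), if_pos h]
      have : a - b + (b - a) = b - a := by omega
      rw [this]
      simp
    · rw [if_pos h, if_neg (by omega), if_neg (by omega)]
      simp
    · rw [if_neg h.ne', if_pos h, if_neg (by omega)]
      have : a - b + (b - a) = a - b := by omega
      rw [this]
      simp
  refine (sum_le_sum h1).trans ?_
  rw [sum_add_distrib, two_mul, ← sum_filter, ← sum_filter]
  apply add_le_add
  · have hinj : Set.InjOn (fun a : ℕ => a - b) ((range H).filter (fun a => b < a)) := by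
      intro a ha a' ha' he
      rw [mem_coe, mem_filter] at ha ha'
      simp only at he
      omega
    rw [← sum_image (f := F) hinj]
    apply sum_le_sum_of_subset_of_nonneg
    · intro m hm
      rw [mem_image] at hm
      obtain ⟨a, ha, rfl⟩ := hm
      rw [mem_filter, mem_range] at ha
      rw [mem_Icc]
      omega
    · intro m _ _
      exact hF m
  · have hinj : Set.InjOn (fun a : ℕ => b - a) ((range H).filter (fun a => a < b)) := by
      intro a ha a' ha' he
      rw [mem_coe, mem_filter] at ha ha'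
      simp only at he
      omega
    rw [← sum_image (f := F) hinj]
    apply sum_le_sum_of_subset_of_nonneg
    · intro m hm
      rw [mem_image] at hm
      obtain ⟨a, ha, rfl⟩ := hm
      rw [mem_filter, mem_range] at ha
      rw [mem_Icc]
      omega
    · intro m _ _
      exact hF m

lemma dvd_ds {a b p : ℕ} (h : a ≡ b [MOD p]) : p ∣ ds a b := by
  unfold ds
  rcases le_total a b with h1 | h1
  · have : a - b + (b - a) = b - a := by omega
    rw [this]
    exact (Nat.modEq_iff_dvd' h1).1 h
  · have : a - b + (b - a) = a - b := by omega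
    rw [this]
    exact (Nat.modEq_iff_dvd' h1).1 h.symm

/-- piece OV -/
theorem ov_main (k : ℕ) : S_OV k := by
  classical
  intro C hC
  set P : Finset (Fin k × Fin k) := univ.filter (fun e => e.1 ≠ e.2) with hP
  set M := #P with hM
  set CM : ℝ := (1 + C) ^ M - 1 with hCM
  have hCM0 : 0 ≤ CM := by
    have : 1 ≤ (1 + C) ^ M := one_le_pow₀ (by linarith)
    rw [hCM]
    linarith
  refine ⟨2 * M * (CM * Real.exp CM), by positivity, ?_⟩
  intro y hy w H
  set g : ℕ → ℝ := fun m => ∏ p ∈ (pz w).filter (fun p => y < p ∧ p ∣ m), (1 + C / (p : ℝ)) with hg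
  set G : ℕ → ℝ := fun m => ∏ p ∈ (pz w).filter (fun p => y < p ∧ p ∣ m), (1 + CM / (p : ℝ)) with hG
  have hg1 : ∀ m, 1 ≤ g m := by
    intro m
    apply one_le_prod
    intro p _
    have : 0 ≤ C / (p : ℝ) := by positivity
    linarith
  have hG1 : ∀ m, 1 ≤ G m := by
    intro m
    apply one_le_prod
    intro p _
    have : 0 ≤ CM / (p : ℝ) := by positivity
    linarith
  have hgG : ∀ m, g m ^ M ≤ G m := by
    intro m
    rw [hg, hG]
    simp only
    rw [← prod_pow]
    apply prod_le_prod
    · intro p _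
      positivity
    · intro p hp
      have hp' : p.Prime := (mem_pz.1 (mem_filter.1 hp).1).2
      have hp1 : (1 : ℝ) ≤ p := by exact_mod_cast hp'.one_le
      have h1 := one_add_mul_pow_le C (1 / (p : ℝ)) hC (by positivity) (by rw [div_le_one (by linarith)]; exact hp1) M
      rw [← hCM] at h1
      have e1 : C * (1 / (p : ℝ)) = C / p := by ring
      have e2 : CM * (1 / (p : ℝ)) = CM / p := by ring
      rw [e1, e2] at h1
      exact h1
  have h1 : ∀ h ∈ inj k H, ∏ p ∈ (pz w).filter (fun p => y < p ∧ ov h p), (1 + C / (p : ℝ)) ≤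
      1 + ∑ e ∈ P, (G (ds (h e.1) (h e.2)) - 1) := by
    intro h hh
    have h2 : (pz w).filter (fun p => y < p ∧ ov h p) ⊆
        P.biUnion (fun e => (pz w).filter (fun p => y < p ∧ p ∣ ds (h e.1) (h e.2))) := by
      intro p hp
      rw [mem_filter] at hp
      obtain ⟨hp1, hp2, i, j, hij, hmod⟩ := hp
      rw [mem_biUnion]
      refine ⟨(i, j), ?_, ?_⟩
      · rw [hP, mem_filter]
        exact ⟨mem_univ _, hij⟩
      · rw [mem_filter]
        exact ⟨hp1, hp2, dvd_ds hmod⟩
    have h3 : ∏ p ∈ (pz w).filter (fun p => y < p ∧ ov h p), (1 + C / (p : ℝ)) ≤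
        ∏ p ∈ P.biUnion (fun e => (pz w).filter (fun p => y < p ∧ p ∣ ds (h e.1) (h e.2))), (1 + C / (p : ℝ)) := by
      rw [← prod_sdiff h2]
      have h4 : 1 ≤ ∏ p ∈ P.biUnion (fun e => (pz w).filter (fun p => y < p ∧ p ∣ ds (h e.1) (h e.2))) \
          (pz w).filter (fun p => y < p ∧ ov h p), (1 + C / (p : ℝ)) := by
        apply one_le_prod
        intro p _
        have : 0 ≤ C / (p : ℝ) := by positivity
        linarith
      have h5 : 0 ≤ ∏ p ∈ (pz w).filter (fun p => y < p ∧ ov h p), (1 + C / (p : ℝ)) :=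
        prod_nonneg fun p _ => by positivity
      nlinarith
    refine h3.trans ?_
    refine (prod_biUnion_le P _ (fun p : ℕ => 1 + C / (p : ℝ)) (fun p => by
      have : 0 ≤ C / (p : ℝ) := by positivity
      linarith)).trans ?_
    refine (prod_le_sum P (fun e => g (ds (h e.1) (h e.2))) (fun e _ => hg1 _)).trans ?_
    apply add_le_add_right
    apply sum_le_sum
    intro e _
    have := hgG (ds (h e.1) (h e.2))
    rw [← hM]
    linarith
  refine (sum_le_sum h1).trans ?_
  rw [sum_add_distrib, sum_const, nsmul_eq_mul, mul_one, sum_comm]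
  have h2 : (#(inj k H) : ℝ) ≤ (H : ℝ) ^ k := by exact_mod_cast card_inj_le k H
  have h3 : ∀ e ∈ P, ∑ h ∈ inj k H, (G (ds (h e.1) (h e.2)) - 1) ≤ 2 * (CM * Real.exp CM) / y * (H : ℝ) ^ k := by
    intro e he
    rw [hP, mem_filter] at he
    have hk : 1 ≤ k := by
      have := e.1.2
      omega
    have hy0 : (0 : ℝ) < y := by exact_mod_cast hy
    have hy1 : (1 : ℝ) ≤ y := by exact_mod_cast hy
    have h4 : ∑ h ∈ inj k H, (G (ds (h e.1) (h e.2)) - 1) ≤
        ∑ h ∈ Fintype.piFinset (fun _ : Fin k => range H),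
          (fun a b : ℕ => if a = b then 0 else G (ds a b) - 1) (h e.1) (h e.2) := by
      have h5 : ∀ h ∈ inj k H, G (ds (h e.1) (h e.2)) - 1 =
          (fun a b : ℕ => if a = b then 0 else G (ds a b) - 1) (h e.1) (h e.2) := by
        intro h hh
        rw [mem_inj] at hh
        simp only
        rw [if_neg]
        intro h6
        exact he.2 (hh.2 h6)
      rw [sum_congr rfl h5]
      apply sum_le_sum_of_subset_of_nonneg
      · unfold inj
        exact filter_subset _ _
      · intro h _ _
        simp only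
        split_ifs
        · exact le_refl _
        · have := hG1 (ds (h e.1) (h e.2))
          linarith
    refine h4.trans ?_
    have hB : ∀ b < H, ∑ a ∈ range H, (fun a b : ℕ => if a = b then 0 else G (ds a b) - 1) a b ≤
        2 * (CM * Real.exp CM) / y * H := by
      intro b hb
      simp only
      refine (one_coord (fun m => G m - 1) (fun m => by have := hG1 m; linarith) H b hb).trans ?_
      have h5 := mean CM hCM0 y w H hy
      rw [sum_sub_distrib, sum_const, Nat.card_Icc, nsmul_eq_mul, mul_one, Nat.add_sub_cancel]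
      have h6 := exp_sub_one_le (CM / y) (by positivity)
      have h7 : Real.exp (CM / y) ≤ Real.exp CM := by
        apply Real.exp_le_exp.2
        exact div_le_self hCM0 hy1
      have h8 : CM / y * Real.exp (CM / y) ≤ CM / y * Real.exp CM := by gcongr
      have hH : (0 : ℝ) ≤ H := Nat.cast_nonneg H
      have h9 : (H : ℝ) * (Real.exp (CM / y) - 1) ≤ H * (CM / y * Real.exp CM) := by
        apply mul_le_mul_of_nonneg_left _ hH
        linarith
      have h10 : ∑ m ∈ Icc 1 H, G m - (H : ℝ) ≤ H * (CM / y * Real.exp CM) := by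
        have : ∑ m ∈ Icc 1 H, G m ≤ H * Real.exp (CM / y) := h5
        linarith
      calc 2 * (∑ m ∈ Icc 1 H, G m - (H : ℝ)) ≤ 2 * (H * (CM / y * Real.exp CM)) := by linarith
        _ = _ := by ring
    refine (fib H e.1 e.2 he.2 (fun a b : ℕ => if a = b then 0 else G (ds a b) - 1) ?_ _ hB).trans ?_
    · intro a b
      split_ifs
      · exact le_refl _
      · have := hG1 (ds a b)
        linarith
    · have h5 : (H : ℝ) ^ k = (H : ℝ) ^ (k - 1) * H := by
        rw [← pow_succ]
        congr 1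
        omega
      rw [h5]
      apply le_of_eq
      ring
  have h4 := sum_le_sum h3
  rw [sum_const, nsmul_eq_mul, ← hM] at h4
  calc (#(inj k H) : ℝ) + ∑ e ∈ P, ∑ h ∈ inj k H, (G (ds (h e.1) (h e.2)) - 1)
      ≤ (H : ℝ) ^ k + M * (2 * (CM * Real.exp CM) / y * (H : ℝ) ^ k) := add_le_add h2 h4
    _ = _ := by ring

end Run7.h304.KT
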